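import Mathlib

set_option autoImplicit false

namespace Pool.Agent.Helper58.Cwh

open Set Cardinal Filter Topology

theorem mk_iUnion_le' {Y Z : Type} {κ : Cardinal.{0}} (hκ : ℵ₀ ≤ κ) (S : Y → Set Z)
    (hY : #Y ≤ κ) (h : ∀ y, #(S y) ≤ κ) : #(⋃ y, S y) ≤ κ := by
  refine (Cardinal.mk_iUnion_le_sum_mk (f := S)).trans ?_
  refine (Cardinal.sum_le_sum _ (fun _ => κ) h).trans ?_
  rw [Cardinal.sum_const']
  calc #Y * κ ≤ κ * κ := mul_le_mul_left hY κ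
    _ = κ := Cardinal.mul_eq_self hκ

theorem pigeonhole {Y Z : Type} {κ : Cardinal.{0}} (hκ : ℵ₀ ≤ κ) (φ : Z → Y) (S : Set Z)
    (hY : #Y ≤ κ) (hS : κ < #S) : ∃ y, κ < #{z | z ∈ S ∧ φ z = y} := by
  by_contra hcon
  push Not at hcon
  have h1 : S = ⋃ y, {z | z ∈ S ∧ φ z = y} := by
    ext z
    simp
  rw [h1] at hS
  exact absurd (mk_iUnion_le' hκ _ hY hcon) (not_le.2 hS)

theorem mk_nodes_le {κ : Cardinal.{0}} (hκ : ℵ₀ ≤ κ) {I : ℕ → Type} (hI : ∀ n, #(I n) ≤ κ) :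
    #(Σ n : ℕ, ∀ i : Fin n, I i) ≤ κ := by
  rw [Cardinal.mk_sigma]
  have h1 : ∀ n : ℕ, #(∀ i : Fin n, I i) ≤ κ := by
    intro n
    rw [Cardinal.mk_pi]
    calc Cardinal.prod (fun i : Fin n => #(I i)) ≤ Cardinal.prod (fun _ : Fin n => κ) :=
          Cardinal.prod_le_prod _ _ (fun i => hI i)
      _ = κ ^ #(Fin n) := by rw [Cardinal.prod_const']
      _ = κ ^ (n : Cardinal) := by rw [Cardinal.mk_fin]
      _ ≤ κ := Cardinal.power_nat_le hκ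
  refine (Cardinal.sum_le_sum _ (fun _ => κ) h1).trans ?_
  rw [Cardinal.sum_const']
  calc #ℕ * κ ≤ κ * κ := mul_le_mul_left (by simpa using hκ) κ
    _ = κ := Cardinal.mul_eq_self hκ

theorem mk_E_le {K : Type} (hK : ℵ₀ ≤ #K) : #(Finset (ℕ ⊕ K)) ≤ #K := by
  rw [Cardinal.mk_finset_of_infinite]
  simp only [mk_sum, mk_nat, Cardinal.lift_id]
  exact (Cardinal.add_eq_right hK hK).le

end Pool.Agent.Helper58.Cwh
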