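import Pool.Agent.Helper58.CwhTop
import Pool.Agent.Helper58.CwhCard

set_option autoImplicit false

namespace Pool.Agent.Helper58.Cwh

open Set Cardinal Filter Topology

variable {I : ℕ → Type} {J : Type} {f : J → ∀ n, I n}

theorem mk_Iic_le [LinearOrder J] {κ : Cardinal.{0}} (hκ : ℵ₀ ≤ κ)
    (hinit : ∀ j : J, #(Iio j) ≤ κ) (j : J) : #(Iic j) ≤ κ := by
  have h : Iic j = Iio j ∪ {j} := by
    ext i
    simp [le_iff_lt_or_eq]
  rw [h]
  refine (Cardinal.mk_union_le _ _).trans ?_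
  refine (add_le_add (hinit j) (b := κ) (d := κ) ?_).trans ?_
  · rw [Cardinal.mk_singleton]
    exact Cardinal.one_le_aleph0.trans hκ
  · exact (Cardinal.add_eq_self hκ).le

theorem two_branches [LinearOrder J] [∀ n, LinearOrder (I n)] {κ : Cardinal.{0}} (hκ : ℵ₀ ≤ κ)
    (hI : ∀ n, #(I n) ≤ κ) (hinit : ∀ j : J, #(Iio j) ≤ κ)
    (hmono : ∀ i j : J, i < j → ∀ᶠ n in atTop, f i n < f j n)
    (S : Set J) (hS : κ < #S)
    (hstar : ∀ x, x ∉ range f → ∃ n, #{j | j ∈ S ∧ Agree n x (f j)} ≤ κ) : False := by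
  classical
  let S' : Set J := {j | j ∈ S ∧ ∀ n, κ < #{i | i ∈ S ∧ Agree n (f j) (f i)}}
  have hdiff : #(S \ S' : Set J) ≤ κ := by
    let T : (Σ n : ℕ, ∀ i : Fin n, I i) → Set J := fun t =>
      {j | j ∈ S ∧ (⟨t.1, fun i => f j i⟩ : Σ n : ℕ, ∀ i : Fin n, I i) = t ∧
        #{i | i ∈ S ∧ Agree t.1 (f j) (f i)} ≤ κ}
    have hsub : (S \ S' : Set J) ⊆ ⋃ t, T t := by
      rintro j ⟨hj, hj'⟩
      have : ∃ n, #{i | i ∈ S ∧ Agree n (f j) (f i)} ≤ κ := by
        by_contra hcon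
        push Not at hcon
        exact hj' ⟨hj, hcon⟩
      obtain ⟨n, hn⟩ := this
      exact mem_iUnion.2 ⟨⟨n, fun i => f j i⟩, hj, rfl, hn⟩
    refine (Cardinal.mk_le_mk_of_subset hsub).trans ?_
    refine mk_iUnion_le' hκ T (mk_nodes_le hκ hI) fun t => ?_
    by_cases hne : (T t).Nonempty
    · obtain ⟨j0, hj0, ht, hle⟩ := hne
      refine (Cardinal.mk_le_mk_of_subset ?_).trans hle
      rintro j ⟨hj, hjt, -⟩
      refine ⟨hj, fun i hi => ?_⟩
      have h3 := ht.trans hjt.symm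
      have h4 : (fun i : Fin t.1 => f j0 i) = (fun i : Fin t.1 => f j i) := by
        exact eq_of_heq (Sigma.mk.inj h3).2
      exact congrFun h4 ⟨i, hi⟩
    · rw [not_nonempty_iff_eq_empty] at hne
      rw [hne]
      simp
  have hcof : ∀ j ∈ S', ∀ n, ∀ i0 : J, ∃ i ∈ S', i0 < i ∧ Agree n (f j) (f i) := by
    intro j hj n i0
    by_contra hcon
    push Not at hcon
    have hsub : {i | i ∈ S ∧ Agree n (f j) (f i)} ⊆ (S \ S' : Set J) ∪ Iic i0 := by
      rintro i ⟨hi, hag⟩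
      by_cases hi' : i ∈ S'
      · right
        by_contra hlt
        exact hcon i hi' (not_le.1 hlt) hag
      · exact Or.inl ⟨hi, hi'⟩
    have h1 := (Cardinal.mk_le_mk_of_subset hsub).trans (Cardinal.mk_union_le _ _)
    have h2 := h1.trans (add_le_add hdiff (mk_Iic_le hκ hinit i0))
    rw [Cardinal.add_eq_self hκ] at h2
    exact absurd h2 (not_le.2 (hj.2 n))
  have hne : S'.Nonempty := by
    by_contra hcon
    rw [not_nonempty_iff_eq_empty] at hcon
    rw [hcon, sdiff_empty] at hdiff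
    exact absurd hdiff (not_le.2 hS)
  obtain ⟨j0, hj0⟩ := hne
  let St : Type := {s : J × J × ℕ // s.1 ∈ S' ∧ s.2.1 ∈ S'}
  let R : St → St → Prop := fun s s' => s.1.2.2 < s'.1.2.2 ∧
    Agree s.1.2.2 (f s.1.1) (f s'.1.1) ∧ Agree s.1.2.2 (f s.1.2.1) (f s'.1.2.1) ∧
    (∃ m, s.1.2.2 ≤ m ∧ m < s'.1.2.2 ∧ f s'.1.2.1 m < f s'.1.1 m) ∧
    (∃ m, s.1.2.2 ≤ m ∧ m < s'.1.2.2 ∧ f s'.1.1 m < f s'.1.2.1 m)
  have hstep : ∀ s : St, ∃ s' : St, R s s' := by
    rintro ⟨⟨i, j, n⟩, hi, hj⟩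
    obtain ⟨i', hi', hji', hag⟩ := hcof i hi n j
    obtain ⟨m, hm, hnm⟩ := ((hmono j i' hji').and (eventually_ge_atTop n)).exists
    obtain ⟨j', hj', hij', hag'⟩ := hcof j hj (m + 1) i'
    obtain ⟨m', hm', hnm'⟩ := ((hmono i' j' hij').and (eventually_ge_atTop (m + 1))).exists
    refine ⟨⟨⟨i', j', m' + 1⟩, hi', hj'⟩, ?_, hag, hag'.mono (by show n ≤ m + 1; omega), ⟨m, hnm, ?_, ?_⟩,
      ⟨m', ?_, ?_, hm'⟩⟩
    · show n < m' + 1
      omega
    · show m < m' + 1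
      omega
    · show f j' m < f i' m
      rw [← hag' m (Nat.lt_succ_self m)]
      exact hm
    · show n ≤ m'
      omega
    · show m' < m' + 1
      omega
  choose nxt hnxt using hstep
  let s0 : St := ⟨⟨j0, j0, 0⟩, hj0, hj0⟩
  let s : ℕ → St := fun k => nxt^[k] s0
  have hs : ∀ k, R (s k) (s (k + 1)) := by
    intro k
    have : s (k + 1) = nxt (s k) := Function.iterate_succ_apply' nxt k s0
    rw [this]
    exact hnxt (s k)
  have hlt : ∀ k, (s k).1.2.2 < (s (k + 1)).1.2.2 := fun k => (hs k).1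
  have hmonoN : StrictMono fun k => (s k).1.2.2 := strictMono_nat_of_lt_succ hlt
  have hge : ∀ k, k ≤ (s k).1.2.2 := fun k => hmonoN.id_le k
  have hagI : ∀ k l, k ≤ l → Agree (s k).1.2.2 (f (s k).1.1) (f (s l).1.1) := by
    intro k l hkl
    induction l, hkl using Nat.le_induction with
    | base => exact Agree.refl _ _
    | succ l hkl ih => exact ih.trans ((hs l).2.1.mono (hmonoN.monotone hkl))
  have hagJ : ∀ k l, k ≤ l → Agree (s k).1.2.2 (f (s k).1.2.1) (f (s l).1.2.1) := by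
    intro k l hkl
    induction l, hkl using Nat.le_induction with
    | base => exact Agree.refl _ _
    | succ l hkl ih => exact ih.trans ((hs l).2.2.1.mono (hmonoN.monotone hkl))
  let x : ∀ n, I n := fun m => f (s (m + 1)).1.1 m
  let y : ∀ n, I n := fun m => f (s (m + 1)).1.2.1 m
  have hx : ∀ k, Agree (s k).1.2.2 x (f (s k).1.1) := by
    intro k m hm
    show f (s (m + 1)).1.1 m = f (s k).1.1 m
    rcases le_total k (m + 1) with h | h
    · exact (hagI k (m + 1) h m hm).symm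
    · exact hagI (m + 1) k h m (Nat.lt_of_lt_of_le (Nat.lt_succ_self m) (hge (m + 1)))
  have hy : ∀ k, Agree (s k).1.2.2 y (f (s k).1.2.1) := by
    intro k m hm
    show f (s (m + 1)).1.2.1 m = f (s k).1.2.1 m
    rcases le_total k (m + 1) with h | h
    · exact (hagJ k (m + 1) h m hm).symm
    · exact hagJ (m + 1) k h m (Nat.lt_of_lt_of_le (Nat.lt_succ_self m) (hge (m + 1)))
  have hmemR : ∀ z : (∀ n, I n), (∀ k : ℕ, ∃ j ∈ S', Agree k z (f j)) → z ∈ range f := by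
    intro z hz
    by_contra hcon
    obtain ⟨n, hn⟩ := hstar z hcon
    obtain ⟨j, hj, hag⟩ := hz n
    have hsub : {i | i ∈ S ∧ Agree n (f j) (f i)} ⊆ {i | i ∈ S ∧ Agree n z (f i)} := by
      rintro i ⟨hi, hi'⟩
      exact ⟨hi, hag.trans hi'⟩
    exact absurd ((Cardinal.mk_le_mk_of_subset hsub).trans hn) (not_le.2 (hj.2 n))
  obtain ⟨a, ha⟩ := hmemR x fun k => ⟨(s k).1.1, (s k).2.1, (hx k).mono (hge k)⟩
  obtain ⟨b, hb⟩ := hmemR y fun k => ⟨(s k).1.2.1, (s k).2.2, (hy k).mono (hge k)⟩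
  have hio1 : ∀ N, ∃ m ≥ N, y m < x m := by
    intro N
    obtain ⟨m, h1, h2, h3⟩ := (hs N).2.2.2.1
    refine ⟨m, (hge N).trans h1, ?_⟩
    rw [hx (N + 1) m h2, hy (N + 1) m h2]
    exact h3
  have hio2 : ∀ N, ∃ m ≥ N, x m < y m := by
    intro N
    obtain ⟨m, h1, h2, h3⟩ := (hs N).2.2.2.2
    refine ⟨m, (hge N).trans h1, ?_⟩
    rw [hx (N + 1) m h2, hy (N + 1) m h2]
    exact h3
  rcases lt_trichotomy a b with h | h | h
  · obtain ⟨N, hN⟩ := eventually_atTop.1 (hmono a b h)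
    obtain ⟨m, hm, hlt'⟩ := hio1 N
    have := hN m hm
    rw [ha, hb] at this
    exact lt_asymm this hlt'
  · obtain ⟨m, hm, hlt'⟩ := hio1 0
    rw [← ha, ← hb, h] at hlt'
    exact lt_irrefl _ hlt'
  · obtain ⟨N, hN⟩ := eventually_atTop.1 (hmono b a h)
    obtain ⟨m, hm, hlt'⟩ := hio2 N
    have := hN m hm
    rw [ha, hb] at this
    exact lt_asymm this hlt'

end Pool.Agent.Helper58.Cwh
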