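import Pool.Agent.Helper58.CwhTop

set_option autoImplicit false

namespace Pool.Agent.Helper58.Cwh

open Set Cardinal Filter Topology

variable {K : Type} {I : ℕ → Type} {J : Type} {f : J → ∀ n, I n}

theorem C_congr {x y : ∀ n, I n} {n : ℕ} (h : Agree n x y) (e : Finset (ℕ ⊕ K)) :
    (C x n e : Set (Pt K f)) = C y n e := by
  ext p
  constructor
  · rintro ⟨z, hz, rfl⟩
    exact ⟨z, h.symm.trans hz, rfl⟩
  · rintro ⟨z, hz, rfl⟩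
    exact ⟨z, h.trans hz, rfl⟩

theorem metacompact (hf : Function.Injective f) (𝒰 : Set (Set (Pt K f)))
    (hU : ∀ U ∈ 𝒰, IsOpen U) (hcov : ⋃₀ 𝒰 = Set.univ) :
    ∃ 𝒱 : Set (Set (Pt K f)), (∀ V ∈ 𝒱, IsOpen V) ∧ ⋃₀ 𝒱 = Set.univ ∧
      (∀ V ∈ 𝒱, ∃ U ∈ 𝒰, V ⊆ U) ∧ ∀ p, {V | V ∈ 𝒱 ∧ p ∈ V}.Finite := by
  classical
  have hmem : ∀ p : Pt K f, ∃ U ∈ 𝒰, p ∈ U := by
    intro p
    have : p ∈ ⋃₀ 𝒰 := by rw [hcov]; trivial
    exact this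
  have h1 : ∀ j : J, ∃ e₀ : Finset (ℕ ⊕ K), ∃ U ∈ 𝒰, (B j e₀ : Set (Pt K f)) ⊆ U := by
    intro j
    obtain ⟨U, hU1, hU2⟩ := hmem (Pt.lim j)
    obtain ⟨e₀, he₀⟩ := (isOpen_iff'.1 (hU U hU1)).1 j hU2
    refine ⟨e₀, U, hU1, ?_⟩
    rintro _ (rfl | ⟨e, he, rfl⟩)
    · exact hU2
    · exact he₀ e he
  choose E hE using h1
  let Good : (∀ n, I n) → ℕ → Finset (ℕ ⊕ K) → Prop := fun x n e =>
    ∃ U ∈ 𝒰, (C x n e : Set (Pt K f)) ⊆ U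
  have h2 : ∀ x : ∀ n, I n, x ∉ range f → ∀ e, ∃ n, Good x n e := by
    intro x hx e
    obtain ⟨U, hU1, hU2⟩ := hmem (Pt.nd x e)
    obtain ⟨n, hn⟩ := (isOpen_iff'.1 (hU U hU1)).2 x hx e hU2
    refine ⟨n, U, hU1, ?_⟩
    rintro _ ⟨y, hy, rfl⟩
    exact hn y hy
  let 𝒱₁ : Set (Set (Pt K f)) := {V | ∃ j, V = B j (E j)}
  let 𝒱₂ : Set (Set (Pt K f)) := {V | ∃ x n e, V = C x n e ∧ Good x n e ∧ ∀ m < n, ¬ Good x m e}
  let 𝒱₃ : Set (Set (Pt K f)) := {V | ∃ j e, V = {Pt.nd (f j) e}}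
  refine ⟨𝒱₁ ∪ 𝒱₂ ∪ 𝒱₃, ?_, ?_, ?_, ?_⟩
  · rintro V ((⟨j, rfl⟩ | ⟨x, n, e, rfl, -, -⟩) | ⟨j, e, rfl⟩)
    · exact isOpen_B _ _
    · exact isOpen_C _ _ _
    · exact isOpen_iso _ _
  · refine eq_univ_of_forall fun p => ?_
    rcases p with ⟨x, e⟩ | ⟨j⟩
    · by_cases hx : x ∈ range f
      · obtain ⟨j, rfl⟩ := hx
        exact ⟨{Pt.nd (f j) e}, Or.inr ⟨j, e, rfl⟩, rfl⟩
      · have h3 := h2 x hx e
        refine ⟨C x (Nat.find h3) e, Or.inl (Or.inr ⟨x, Nat.find h3, e, rfl, Nat.find_spec h3,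
          fun m hm => Nat.find_min h3 hm⟩), nd_mem_C.2 ⟨Agree.refl _ _, rfl⟩⟩
    · exact ⟨B j (E j), Or.inl (Or.inl ⟨j, rfl⟩), lim_mem_B.2 rfl⟩
  · rintro V ((⟨j, rfl⟩ | ⟨x, n, e, rfl, h, -⟩) | ⟨j, e, rfl⟩)
    · exact hE j
    · exact h
    · obtain ⟨U, hU1, hU2⟩ := hmem (Pt.nd (f j) e)
      exact ⟨U, hU1, singleton_subset_iff.2 hU2⟩
  · intro p
    have hs1 : {V | V ∈ 𝒱₁ ∧ p ∈ V}.Subsingleton := by
      rintro _ ⟨⟨i, rfl⟩, hi⟩ _ ⟨⟨j, rfl⟩, hj⟩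
      have hij : i = j := by
        rcases p with ⟨x, e⟩ | ⟨k⟩
        · exact hf ((nd_mem_B.1 hi).1.symm.trans (nd_mem_B.1 hj).1)
        · exact (lim_mem_B.1 hi).symm.trans (lim_mem_B.1 hj)
      rw [hij]
    have hs2 : {V | V ∈ 𝒱₂ ∧ p ∈ V}.Subsingleton := by
      rintro _ ⟨⟨x, n, e, rfl, hg, hmin⟩, hi⟩ _ ⟨⟨x', n', e', rfl, hg', hmin'⟩, hj⟩
      rcases p with ⟨y, e''⟩ | ⟨k⟩
      · rw [nd_mem_C] at hi hj
        obtain ⟨ha, rfl⟩ := hi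
        obtain ⟨ha', rfl⟩ := hj
        have key : n = n' := by
          rcases lt_trichotomy n n' with h | h | h
          · exfalso
            refine hmin' n h ?_
            obtain ⟨U, hU1, hU2⟩ := hg
            refine ⟨U, hU1, ?_⟩
            rw [C_congr ((ha'.mono h.le).trans ha.symm)]
            exact hU2
          · exact h
          · exfalso
            refine hmin n' h ?_
            obtain ⟨U, hU1, hU2⟩ := hg'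
            refine ⟨U, hU1, ?_⟩
            rw [C_congr ((ha.mono h.le).trans ha'.symm)]
            exact hU2
        subst key
        exact C_congr (ha.trans ha'.symm) _
      · exact absurd hi lim_mem_C
    have hs3 : {V | V ∈ 𝒱₃ ∧ p ∈ V}.Subsingleton := by
      rintro _ ⟨⟨i, e, rfl⟩, hi⟩ _ ⟨⟨j, e', rfl⟩, hj⟩
      rw [mem_singleton_iff] at hi hj
      rw [← hi, ← hj]
    refine ((hs1.finite.union hs2.finite).union hs3.finite).subset ?_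
    rintro V ⟨(h | h) | h, hp⟩
    · exact Or.inl (Or.inl ⟨h, hp⟩)
    · exact Or.inl (Or.inr ⟨h, hp⟩)
    · exact Or.inr ⟨h, hp⟩

end Pool.Agent.Helper58.Cwh
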