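import Pool.Agent.Helper58.CwhBranch

set_option autoImplicit false

namespace Pool.Agent.Helper58.Cwh

open Set Cardinal Filter Topology

variable {K : Type} {I : ℕ → Type} {J : Type} {f : J → ∀ n, I n}

theorem injective_of_mono [LinearOrder J] [∀ n, LinearOrder (I n)]
    (hmono : ∀ i j : J, i < j → ∀ᶠ n in atTop, f i n < f j n) : Function.Injective f := by
  intro i j hij
  by_contra hne
  rcases lt_or_gt_of_ne hne with h | h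
  · obtain ⟨n, hn⟩ := (hmono i j h).exists
    rw [hij] at hn
    exact lt_irrefl _ hn
  · obtain ⟨n, hn⟩ := (hmono j i h).exists
    rw [hij] at hn
    exact lt_irrefl _ hn

theorem not_paraLindelof [LinearOrder J] [∀ n, LinearOrder (I n)] (hK : ℵ₀ ≤ #K)
    (hI : ∀ n, #(I n) ≤ #K) (hJ : #K < #J) (hinit : ∀ j : J, #(Iio j) ≤ #K)
    (hmono : ∀ i j : J, i < j → ∀ᶠ n in atTop, f i n < f j n)
    (h : ∀ 𝒰 : Set (Set (Pt K f)), (∀ U ∈ 𝒰, IsOpen U) → ⋃₀ 𝒰 = Set.univ →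
        ∃ 𝒱 : Set (Set (Pt K f)), (∀ V ∈ 𝒱, IsOpen V) ∧ ⋃₀ 𝒱 = Set.univ ∧
          (∀ V ∈ 𝒱, ∃ U ∈ 𝒰, V ⊆ U) ∧
          ∀ x : Pt K f, ∃ N ∈ nhds x, {V : Set (Pt K f) | V ∈ 𝒱 ∧ (V ∩ N).Nonempty}.Countable) :
    False := by
  classical
  let R : Set (Pt K f) := {p | ∃ x e, p = Pt.nd x e}
  have hR : IsOpen R := by
    rw [isOpen_iff']
    refine ⟨fun j hj => ?_, fun x hx e he => ⟨0, fun y _ => ⟨y, e, rfl⟩⟩⟩
    obtain ⟨x, e, hxe⟩ := hj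
    cases hxe
  obtain ⟨𝒱, hVo, hVc, hVr, hVl⟩ := h ({R} ∪ {V | ∃ j, V = B j ∅}) (by
    rintro U (rfl | ⟨j, rfl⟩)
    · exact hR
    · exact isOpen_B j ∅) (by
    refine eq_univ_of_forall fun p => ?_
    rcases p with ⟨x, e⟩ | ⟨j⟩
    · exact ⟨R, Or.inl rfl, x, e, rfl⟩
    · exact ⟨B j ∅, Or.inr ⟨j, rfl⟩, lim_mem_B.2 rfl⟩)
  have h1 : ∀ j : J, ∃ V ∈ 𝒱, (Pt.lim j : Pt K f) ∈ V ∧ V ⊆ B j ∅ ∧
      ∃ e₀ : Finset (ℕ ⊕ K), (Pt.nd (f j) e₀ : Pt K f) ∈ V := by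
    intro j
    have hj : (Pt.lim j : Pt K f) ∈ ⋃₀ 𝒱 := by rw [hVc]; trivial
    obtain ⟨V, hV, hjV⟩ := hj
    obtain ⟨U, hU, hVU⟩ := hVr V hV
    refine ⟨V, hV, hjV, ?_, ?_⟩
    · rcases hU with rfl | ⟨i, rfl⟩
      · obtain ⟨x, e, hxe⟩ := hVU hjV
        cases hxe
      · have := lim_mem_B.1 (hVU hjV)
        subst this
        exact hVU
    · obtain ⟨e₀, he₀⟩ := (isOpen_iff'.1 (hVo V hV)).1 j hjV
      exact ⟨e₀, he₀ e₀ (Finset.Subset.refl _)⟩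
  choose V hV hjV hVB E hE using h1
  obtain ⟨e, he⟩ := pigeonhole hK E (Set.univ : Set J) (mk_E_le hK) (by rwa [Cardinal.mk_univ])
  have hVinj : Function.Injective V := by
    intro i j hij
    have := hVB j (hij ▸ hjV i)
    exact lim_mem_B.1 this
  refine two_branches hK hI hinit hmono {j | j ∈ Set.univ ∧ E j = e} he fun x hx => ?_
  obtain ⟨N, hN, hNc⟩ := hVl (Pt.nd x e)
  obtain ⟨O, hON, hO, hxO⟩ := mem_nhds_iff.1 hN
  obtain ⟨n, hn⟩ := (isOpen_iff'.1 hO).2 x hx e hxO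
  refine ⟨n, ?_⟩
  have hcount : {j | j ∈ {j | j ∈ Set.univ ∧ E j = e} ∧ Agree n x (f j)}.Countable := by
    refine Set.MapsTo.countable_of_injOn (f := V) (t := {W | W ∈ 𝒱 ∧ (W ∩ N).Nonempty}) ?_ ?_ hNc
    · rintro j ⟨⟨-, hj⟩, hag⟩
      refine ⟨hV j, Pt.nd (f j) e, ?_, hON (hn (f j) hag)⟩
      rw [← hj]
      exact hE j
    · exact hVinj.injOn
  exact (Cardinal.le_aleph0_iff_set_countable.2 hcount).trans hK

end Pool.Agent.Helper58.Cwh
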