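import Pool.Agent.Helper58.CwhCard

set_option autoImplicit false

namespace Pool.Agent.Helper58.Cwh

open Set Cardinal Filter Topology

/-- A countably branching closure: the smallest set containing `y0` and closed under `G` has size at
most the continuum. -/
theorem exists_closed {Y : Type} (y0 : Y) (G : (ℕ → Y) → Y) :
    ∃ N : Set Y, #N ≤ 𝔠 ∧ y0 ∈ N ∧ ∀ u : ℕ → Y, (∀ n, u n ∈ N) → G u ∈ N := by
  classical
  let β : Bool → Type := fun b => if b then ℕ else Empty
  have hβ : #(WType β) ≤ 𝔠 := by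
    refine WType.cardinalMk_le_of_le' ?_
    have h1 : ∀ b : Bool, (𝔠 : Cardinal.{0}) ^ Cardinal.lift.{0} #(β b) ≤ 𝔠 := by
      rintro (_ | _)
      · have : #(β false) = 0 := by
          show #Empty = 0
          simp
        rw [Cardinal.lift_id, this, Cardinal.power_zero]
        exact Cardinal.one_le_aleph0.trans Cardinal.aleph0_le_continuum
      · have : #(β true) = ℵ₀ := by
          show #ℕ = ℵ₀
          simp
        rw [Cardinal.lift_id, this, Cardinal.continuum_power_aleph0]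
    refine (Cardinal.sum_le_sum _ (fun _ => 𝔠) h1).trans ?_
    rw [Cardinal.sum_const']
    calc #Bool * 𝔠 ≤ 𝔠 * 𝔠 := mul_le_mul_left (by
            simpa using (Cardinal.ofNat_le_aleph0 (n := 2)).trans Cardinal.aleph0_le_continuum) 𝔠
      _ = 𝔠 := Cardinal.mul_eq_self Cardinal.aleph0_le_continuum
  let ev : WType β → Y := fun w => WType.elim Y (fun s : Σ a : Bool, β a → Y =>
    match s with
    | ⟨false, _⟩ => y0
    | ⟨true, g⟩ => G g) w
  refine ⟨range ev, (Cardinal.mk_range_le).trans hβ, ⟨WType.mk false (fun x => Empty.elim x), rfl⟩,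
    fun u hu => ?_⟩
  choose w hw using hu
  refine ⟨WType.mk true w, ?_⟩
  show G (fun n => ev (w n)) = G u
  congr 1
  funext n
  exact hw n

/-- The regular cardinals used. -/
noncomputable def kap : ℕ → Cardinal.{0}
  | 0 => Order.succ 𝔠
  | n + 1 => Order.succ (kap n)

theorem aleph0_le_kap (n : ℕ) : ℵ₀ ≤ kap n := by
  induction n with
  | zero => exact Cardinal.aleph0_le_continuum.trans (Order.le_succ _)
  | succ n ih => exact ih.trans (Order.le_succ _)

theorem isRegular_kap (n : ℕ) : (kap n).IsRegular := by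
  cases n with
  | zero => exact Cardinal.isRegular_succ Cardinal.aleph0_le_continuum
  | succ n => exact Cardinal.isRegular_succ (aleph0_le_kap n)

theorem kap_strictMono : StrictMono kap :=
  strictMono_nat_of_lt_succ fun n => Order.lt_succ (kap n)

/-- The well-ordered factors. -/
abbrev Th (n : ℕ) : Type := (kap n).ord.ToType

theorem mk_Th (n : ℕ) : #(Th n) = kap n := Cardinal.mk_ord_toType _

instance (n : ℕ) : Nonempty (Th n) := by
  rw [Ordinal.nonempty_toType_iff, ne_eq, Cardinal.ord_eq_zero]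
  exact (isRegular_kap n).ne_zero

/-- The index type. -/
abbrev KK : Type := Σ n : ℕ, Th n

theorem kap_le_KK (n : ℕ) : kap n ≤ #KK := by
  rw [← mk_Th n]
  exact Cardinal.mk_le_of_injective (f := fun a : Th n => (⟨n, a⟩ : KK)) sigma_mk_injective

theorem continuum_le_KK : 𝔠 ≤ #KK := (Order.le_succ 𝔠).trans (kap_le_KK 0)

theorem exists_gt_of_small (n : ℕ) (S : Set (Th n)) (hS : #S < kap n) : ∃ b, ∀ s ∈ S, s < b := by
  have hcof : Order.cof (Th n) = kap n := by
    rw [Ordinal.cof_toType, (isRegular_kap n).cof_ord]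
  have hnc : ¬ IsCofinal S := fun h => absurd (Order.cof_le h) (by
    rw [hcof]
    exact not_le.2 hS)
  unfold IsCofinal at hnc
  push Not at hnc
  obtain ⟨b, hb⟩ := hnc
  exact ⟨b, fun s hs => hb s hs⟩

theorem exists_bound_family (x : KK → ∀ n, Th n) : ∃ b : ∀ n, Th n, ∀ k, ∀ᶠ n in atTop, x k n < b n := by
  have h1 : ∀ n m, m < n → ∃ b : Th n, ∀ a : Th m, x ⟨m, a⟩ n < b := by
    intro n m hmn
    obtain ⟨b, hb⟩ := exists_gt_of_small n (range fun a : Th m => x ⟨m, a⟩ n) (by
      refine Cardinal.mk_range_le.trans_lt ?_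
      rw [mk_Th]
      exact kap_strictMono hmn)
    exact ⟨b, fun a => hb _ ⟨a, rfl⟩⟩
  have h2 : ∀ n, ∃ b : Th n, ∀ m < n, ∀ a : Th m, x ⟨m, a⟩ n < b := by
    intro n
    have h3 : ∀ m, ∃ b : Th n, m < n → ∀ a : Th m, x ⟨m, a⟩ n < b := by
      intro m
      by_cases h : m < n
      · obtain ⟨b, hb⟩ := h1 n m h
        exact ⟨b, fun _ => hb⟩
      · exact ⟨Classical.arbitrary _, fun h' => absurd h' h⟩
    choose b hb using h3
    obtain ⟨M, hM⟩ := ((Finset.range n).image b).exists_le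
    refine ⟨M, fun m hm a => (hb m hm a).trans_le (hM _ (Finset.mem_image_of_mem _ ?_))⟩
    exact Finset.mem_range.2 hm
  choose b hb using h2
  refine ⟨b, fun k => ?_⟩
  filter_upwards [eventually_gt_atTop k.1] with n hn
  exact hb n k.1 hn k.2

theorem exists_bound_set (S : Set (∀ n, Th n)) (hS : #S ≤ #KK) :
    ∃ b : ∀ n, Th n, ∀ x ∈ S, ∀ᶠ n in atTop, x n < b n := by
  rcases S.eq_empty_or_nonempty with rfl | ⟨x0, hx0⟩
  · exact ⟨fun n => Classical.arbitrary _, fun x hx => absurd hx (notMem_empty x)⟩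
  · have hne : Nonempty S := ⟨⟨x0, hx0⟩⟩
    obtain ⟨g⟩ := Cardinal.le_def _ _ |>.1 hS
    obtain ⟨b, hb⟩ := exists_bound_family fun k => (Function.invFun g k).1
    refine ⟨b, fun x hx => ?_⟩
    have := hb (g ⟨x, hx⟩)
    rw [Function.leftInverse_invFun g.injective ⟨x, hx⟩] at this
    exact this

/-- The index order of the chain. -/
abbrev JJ : Type := (Order.succ #KK).ord.ToType

theorem mk_JJ : #JJ = Order.succ #KK := Cardinal.mk_ord_toType _

theorem mk_Iio_JJ (j : JJ) : #(Iio j) ≤ #KK := by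
  have h : #(Iio j) < #JJ := Cardinal.mk_Iio_lt j (by simp)
  rw [mk_JJ] at h
  exact Order.lt_succ_iff.1 h

theorem exists_chain : ∃ F : JJ → ∀ n, Th n, ∀ i j, i < j → ∀ᶠ n in atTop, F i n < F j n := by
  have hb : ∀ (j : JJ) (ih : ∀ i, i < j → ∀ n, Th n), ∃ b : ∀ n, Th n,
      ∀ i (h : i < j), ∀ᶠ n in atTop, ih i h n < b n := by
    intro j ih
    obtain ⟨b, hb⟩ := exists_bound_set (range fun i : Iio j => ih i.1 i.2)
      (Cardinal.mk_range_le.trans (mk_Iio_JJ j))
    exact ⟨b, fun i h => hb _ ⟨⟨i, h⟩, rfl⟩⟩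
  choose b hb using hb
  let F : JJ → ∀ n, Th n := WellFounded.fix (r := (· < ·)) (C := fun _ => ∀ n, Th n)
    wellFounded_lt fun j ih => b j ih
  have hF : ∀ j, F j = b j fun i _ => F i := fun j => WellFounded.fix_eq _ _ j
  refine ⟨F, fun i j hij => ?_⟩
  rw [hF j]
  exact hb j (fun i _ => F i) i hij

end Pool.Agent.Helper58.Cwh
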