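import Pool.Agent.Helper58.CwhScaleA
import Pool.Agent.Helper58.CwhBranch

set_option autoImplicit false

namespace Pool.Agent.Helper58.Cwh

open Set Cardinal Filter Topology

theorem exists_gt_mem {κ : Cardinal.{0}} (hκ : ℵ₀ ≤ κ) {J : Type} [LinearOrder J]
    (hinit : ∀ j : J, #(Iio j) ≤ κ) (A : Set J) (hA : κ < #A) (i : J) : ∃ j ∈ A, i < j := by
  by_contra hcon
  push Not at hcon
  have : A ⊆ Iic i := fun j hj => hcon j hj
  exact absurd ((Cardinal.mk_le_mk_of_subset this).trans (mk_Iic_le hκ hinit i)) (not_le.2 hA)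

/-- A long increasing sequence modulo finite sets has a least upper bound. -/
theorem exists_lub {κ : Cardinal.{0}} (hκ : 𝔠 ≤ κ) {J : Type} [LinearOrder J]
    (hJ : κ < #J) (hinit : ∀ j : J, #(Iio j) ≤ κ) {T : ℕ → Type} [∀ n, LinearOrder (T n)]
    [∀ n, WellFoundedLT (T n)] [∀ n, OrderTop (T n)] (F : J → ∀ n, T n)
    (hF : ∀ i j, i < j → ∀ᶠ n in atTop, F i n < F j n) :
    ∃ h : ∀ n, T n, (∀ i, ∀ᶠ n in atTop, F i n < h n) ∧
      ∀ g : ∀ n, T n, (∀ i, ∀ᶠ n in atTop, F i n ≤ g n) → ∀ᶠ n in atTop, h n ≤ g n := by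
  classical
  have hκ0 : ℵ₀ ≤ κ := Cardinal.aleph0_le_continuum.trans hκ
  let Gop : (ℕ → ∀ n, T n) → ∀ n, T n := fun u =>
    if h : ∃ g : ∀ n, T n, (∀ i, ∀ᶠ n in atTop, F i n ≤ g n) ∧ ¬ ∀ᶠ n in atTop, u n n ≤ g n then
      h.choose else fun _ => ⊤
  obtain ⟨N, hNc, hNt, hNG⟩ := exists_closed (fun _ => ⊤ : ∀ n, T n) Gop
  have hmin : ∀ (j : J) (n : ℕ), ∃ u : N, F j n ≤ u.1 n ∧ ∀ v : N, F j n ≤ v.1 n → u.1 n ≤ v.1 n := by
    intro j n
    let S : Set (T n) := {a | F j n ≤ a ∧ ∃ u : N, u.1 n = a}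
    have hS : S.Nonempty := ⟨⊤, le_top, ⟨fun _ => ⊤, hNt⟩, rfl⟩
    obtain ⟨ha1, u, hu⟩ := WellFounded.min_mem (wellFounded_lt (α := T n)) S hS
    refine ⟨u, hu ▸ ha1, fun v hv => ?_⟩
    rw [hu]
    exact not_lt.1 (WellFounded.not_lt_min (wellFounded_lt (α := T n)) S ⟨hv, v, rfl⟩)
  choose φ hφ1 hφ2 using hmin
  have hcard : #(ℕ → N) ≤ κ := by
    rw [Cardinal.mk_arrow]
    simp only [Cardinal.lift_id, Cardinal.mk_nat]
    calc #N ^ ℵ₀ ≤ 𝔠 ^ ℵ₀ := Cardinal.power_le_power_right hNc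
      _ = 𝔠 := Cardinal.continuum_power_aleph0
      _ ≤ κ := hκ
  obtain ⟨u, hu⟩ := pigeonhole hκ0 φ Set.univ hcard (by rwa [Cardinal.mk_univ])
  have hcofin := exists_gt_mem hκ0 hinit _ hu
  have hub : ∀ i, ∀ᶠ n in atTop, F i n < (u n).1 n := by
    intro i
    obtain ⟨j, ⟨-, hj⟩, hij⟩ := hcofin i
    filter_upwards [hF i j hij] with n hn
    have := hφ1 j n
    rw [hj] at this
    exact hn.trans_le this
  refine ⟨fun n => (u n).1 n, hub, ?_⟩
  -- minimality among the functions of the closed family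
  have hminN : ∀ v : N, (∀ i, ∀ᶠ n in atTop, F i n ≤ v.1 n) → ∀ᶠ n in atTop, (u n).1 n ≤ v.1 n := by
    intro v hv
    obtain ⟨j, ⟨-, hj⟩⟩ : Set.Nonempty {z | z ∈ Set.univ ∧ φ z = u} := by
      rw [Set.nonempty_iff_ne_empty]
      intro he
      rw [he] at hu
      simp at hu
    filter_upwards [hv j] with n hn
    have := hφ2 j n v hn
    rw [hj] at this
    exact this
  intro g hg
  by_contra hcon
  have hex : ∃ g : ∀ n, T n, (∀ i, ∀ᶠ n in atTop, F i n ≤ g n) ∧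
      ¬ ∀ᶠ n in atTop, (fun n => (u n).1) n n ≤ g n := ⟨g, hg, hcon⟩
  have hmem : Gop (fun n => (u n).1) ∈ N := hNG _ fun n => (u n).2
  have hval : Gop (fun n => (u n).1) = hex.choose := dif_pos hex
  rw [hval] at hmem
  exact hex.choose_spec.2 (hminN ⟨_, hmem⟩ hex.choose_spec.1)

/-- The least upper bound is exact. -/
theorem exact_of_lub {κ : Cardinal.{0}} (hκ : 𝔠 ≤ κ) {J : Type} [LinearOrder J]
    (hJ : κ < #J) (hinit : ∀ j : J, #(Iio j) ≤ κ) {T : ℕ → Type} [∀ n, LinearOrder (T n)]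
    (F : J → ∀ n, T n) (hF : ∀ i j, i < j → ∀ᶠ n in atTop, F i n < F j n) (h : ∀ n, T n)
    (h1 : ∀ i, ∀ᶠ n in atTop, F i n < h n)
    (h2 : ∀ g : ∀ n, T n, (∀ i, ∀ᶠ n in atTop, F i n ≤ g n) → ∀ᶠ n in atTop, h n ≤ g n)
    (g : ∀ n, T n) (hg : ∀ᶠ n in atTop, g n < h n) : ∃ j, ∀ᶠ n in atTop, g n < F j n := by
  classical
  have hκ0 : ℵ₀ ≤ κ := Cardinal.aleph0_le_continuum.trans hκ
  obtain ⟨B, hB⟩ := pigeonhole hκ0 (fun j => {n | F j n ≤ g n}) Set.univ
    (by rw [Cardinal.mk_set, Cardinal.mk_nat, Cardinal.two_power_aleph0]; exact hκ)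
    (by rwa [Cardinal.mk_univ])
  have hcofin := exists_gt_mem hκ0 hinit _ hB
  obtain ⟨j0, ⟨-, hj0⟩⟩ : Set.Nonempty {z | z ∈ Set.univ ∧ {n | F z n ≤ g n} = B} := by
    rw [Set.nonempty_iff_ne_empty]
    intro he
    rw [he] at hB
    simp at hB
  refine ⟨j0, ?_⟩
  by_contra hcon
  have hfreq : ∃ᶠ n in atTop, n ∈ B := by
    rw [Filter.not_eventually] at hcon
    refine hcon.mono fun n hn => ?_
    rw [← hj0]
    exact not_lt.1 hn
  let g' : ∀ n, T n := fun n => if n ∈ B then g n else h n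
  have hub : ∀ i, ∀ᶠ n in atTop, F i n ≤ g' n := by
    intro i
    obtain ⟨j, ⟨-, hj⟩, hij⟩ := hcofin i
    filter_upwards [hF i j hij, h1 i] with n hn hn'
    by_cases hnB : n ∈ B
    · have h3 : F j n ≤ g n := by
        rw [← hj] at hnB
        exact hnB
      show F i n ≤ if n ∈ B then g n else h n
      rw [if_pos hnB]
      exact hn.le.trans h3
    · show F i n ≤ if n ∈ B then g n else h n
      rw [if_neg hnB]
      exact hn'.le
  obtain ⟨n, hnB, hn1, hn2⟩ := (hfreq.and_eventually ((h2 g' hub).and hg)).exists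
  have : g' n = g n := if_pos hnB
  rw [this] at hn1
  exact absurd hn2 (not_lt.2 hn1)

/-- The scale. -/
theorem exists_scale : ∃ (K : Type) (I : ℕ → Type) (_ : ∀ n, LinearOrder (I n)) (J : Type)
    (_ : LinearOrder J) (f : J → ∀ n, I n), 𝔠 ≤ #K ∧ (∀ n, #(I n) ≤ #K) ∧ #K < #J ∧
      (∀ j : J, #(Iio j) ≤ #K) ∧ (∀ i j : J, i < j → ∀ᶠ n in atTop, f i n < f j n) ∧
      (∀ g : ∀ n, I n, ∃ j, ∀ᶠ n in atTop, g n ≤ f j n) := by
  classical
  obtain ⟨F0, hF0⟩ := exists_chain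
  let F : JJ → ∀ n, WithTop (Th n) := fun j n => (F0 j n : WithTop (Th n))
  have hF : ∀ i j, i < j → ∀ᶠ n in atTop, F i n < F j n := by
    intro i j hij
    filter_upwards [hF0 i j hij] with n hn
    exact WithTop.coe_lt_coe.2 hn
  have hJ : #KK < #JJ := by
    rw [mk_JJ]
    exact Order.lt_succ _
  obtain ⟨h, h1, h2⟩ := exists_lub continuum_le_KK hJ mk_Iio_JJ F hF
  have h3 := exact_of_lub continuum_le_KK hJ mk_Iio_JJ F hF h h1 h2
  let h' : ∀ n, WithTop (Th n) := fun n => if ∃ a : Th n, (a : WithTop (Th n)) < h n then h n else ⊤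
  have hne : ∀ n, Nonempty {a : Th n // (a : WithTop (Th n)) < h' n} := by
    intro n
    by_cases hn : ∃ a : Th n, (a : WithTop (Th n)) < h n
    · obtain ⟨a, ha⟩ := hn
      refine ⟨⟨a, ?_⟩⟩
      show (a : WithTop (Th n)) < if ∃ a : Th n, (a : WithTop (Th n)) < h n then h n else ⊤
      rw [if_pos ⟨a, ha⟩]
      exact ha
    · refine ⟨⟨Classical.arbitrary _, ?_⟩⟩
      show _ < if ∃ a : Th n, (a : WithTop (Th n)) < h n then h n else ⊤
      rw [if_neg hn]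
      exact WithTop.coe_lt_top _
  have hJne : Nonempty JJ := by
    rw [← Cardinal.mk_ne_zero_iff]
    intro h0
    rw [h0] at hJ
    exact absurd hJ (not_lt.2 zero_le)
  have heq : ∀ᶠ n in atTop, h' n = h n := by
    filter_upwards [h1 (Classical.arbitrary JJ)] with n hn
    exact if_pos ⟨_, hn⟩
  let I : ℕ → Type := fun n => {a : Th n // (a : WithTop (Th n)) < h' n}
  let f : JJ → ∀ n, I n := fun j n =>
    if H : (F0 j n : WithTop (Th n)) < h' n then ⟨F0 j n, H⟩ else Classical.choice (hne n)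
  have hfv : ∀ j, ∀ᶠ n in atTop, (f j n).1 = F0 j n := by
    intro j
    filter_upwards [heq, h1 j] with n hn hn'
    have H : (F0 j n : WithTop (Th n)) < h' n := by
      rw [hn]
      exact hn'
    have : f j n = ⟨F0 j n, H⟩ := dif_pos H
    rw [this]
  refine ⟨KK, I, fun n => inferInstance, JJ, inferInstance, f, continuum_le_KK, ?_, hJ, mk_Iio_JJ,
    ?_, ?_⟩
  · intro n
    refine (Cardinal.mk_subtype_le _).trans ?_
    rw [mk_Th]
    exact kap_le_KK n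
  · intro i j hij
    filter_upwards [hfv i, hfv j, hF0 i j hij] with n hi hj hn
    rw [← Subtype.coe_lt_coe, hi, hj]
    exact hn
  · intro g
    obtain ⟨j, hj⟩ := h3 (fun n => ((g n).1 : WithTop (Th n))) (by
      filter_upwards [heq] with n hn
      rw [← hn]
      exact (g n).2)
    refine ⟨j, ?_⟩
    filter_upwards [hj, hfv j] with n hn hn'
    rw [← Subtype.coe_le_coe, hn']
    exact (WithTop.coe_lt_coe.1 hn).le

end Pool.Agent.Helper58.Cwh
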