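import Pool.Agent.Helper58.CwhMeta
import Pool.Agent.Helper58.CwhPara

set_option autoImplicit false

namespace Pool.Agent.Helper58.Cwh

open Set Cardinal Filter Topology

variable {K : Type} {I : ℕ → Type} {J : Type} {f : J → ∀ n, I n}

theorem isClosed_Z (e : Finset (ℕ ⊕ K)) :
    IsClosed {p : Pt K f | ∃ x, x ∉ range f ∧ p = Pt.nd x e} := by
  rw [← isOpen_compl_iff, isOpen_iff']
  refine ⟨fun j _ => ?_, fun y hy e' he => ?_⟩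
  · obtain ⟨e₀, h0⟩ := exists_not_subset e
    refine ⟨e₀, fun e' he' => ?_⟩
    rintro ⟨x, -, hx⟩
    cases hx
    exact h0 he'
  · refine ⟨0, fun z _ => ?_⟩
    rintro ⟨x, -, hx⟩
    cases hx
    exact he ⟨y, hy, rfl⟩

theorem mk_H_le (F : Set (Pt K f)) (hL : IsLindelof F) (e : Finset (ℕ ⊕ K)) :
    #{x : ∀ n, I n | x ∉ range f ∧ Pt.nd x e ∈ F} ≤ 𝔠 := by
  classical
  have hLZ := hL.inter_right (isClosed_Z (f := f) e)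
  have hA : ∀ n : ℕ, ∃ A : Set (I n), A.Countable ∧
      ∀ x : ∀ n, I n, x ∉ range f → Pt.nd x e ∈ F → x n ∈ A := by
    intro n
    let U : Pt K f → Set (Pt K f) := fun p => match p with
      | Pt.nd x e' => C x (n + 1) e'
      | Pt.lim _ => Set.univ
    obtain ⟨t, htc, hts, htU⟩ := hLZ.elim_nhds_subcover U (by
      rintro p ⟨hp, x, hx, rfl⟩
      exact (isOpen_C x (n + 1) e).mem_nhds (nd_mem_C.2 ⟨Agree.refl _ _, rfl⟩))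
    refine ⟨⋃ p ∈ t, {a | ∃ x : ∀ n, I n, p = Pt.nd x e ∧ a = x n}, ?_, ?_⟩
    · refine htc.biUnion fun p _ => Set.Subsingleton.countable ?_
      rintro a ⟨x, hx, rfl⟩ b ⟨y, hy, rfl⟩
      rw [hx] at hy
      cases hy
      rfl
    · intro x hx hxF
      have hmem := htU ⟨hxF, x, hx, rfl⟩
      simp only [mem_iUnion] at hmem
      obtain ⟨p, hp, hxp⟩ := hmem
      obtain ⟨-, y, hy, hpy⟩ := hts p hp
      subst hpy
      have hag := (nd_mem_C.1 (hxp : Pt.nd x e ∈ C y (n + 1) e)).1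
      simp only [mem_iUnion]
      exact ⟨Pt.nd y e, hp, y, rfl, (hag n (Nat.lt_succ_self n)).symm⟩
  choose A hAc hAm using hA
  have hinj : Function.Injective
      (fun (x : {x : ∀ n, I n | x ∉ range f ∧ (Pt.nd x e : Pt K f) ∈ F}) (n : ℕ) =>
        (⟨x.1 n, hAm n x.1 x.2.1 x.2.2⟩ : A n)) := by
    intro x y hxy
    apply Subtype.ext
    funext n
    exact congrArg Subtype.val (congrFun hxy n)
  refine (Cardinal.mk_le_of_injective hinj).trans ?_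
  rw [Cardinal.mk_pi]
  calc Cardinal.prod (fun n => #(A n)) ≤ Cardinal.prod (fun _ : ℕ => ℵ₀) :=
        Cardinal.prod_le_prod _ _ (fun n => Cardinal.le_aleph0_iff_set_countable.2 (hAc n))
    _ = ℵ₀ ^ #ℕ := by rw [Cardinal.prod_const']
    _ = 𝔠 := by rw [Cardinal.mk_nat, Cardinal.aleph0_power_aleph0]
    _ ≤ 𝔠 := le_rfl

theorem mk_Le_le {κ : Cardinal.{0}} (hκ : 𝔠 ≤ κ) (hI : ∀ n, #(I n) ≤ κ)
    (𝓕 : Set (Set (Pt K f))) (h𝓕 : ∀ F ∈ 𝓕, IsClosed F ∧ IsLindelof F)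
    (hd : ∀ x, ∃ N ∈ 𝓝 x, {F | F ∈ 𝓕 ∧ (F ∩ N).Nonempty}.Subsingleton) (e : Finset (ℕ ⊕ K)) :
    #{x : ∀ n, I n | x ∉ range f ∧ ∃ F ∈ 𝓕, Pt.nd x e ∈ F} ≤ κ := by
  classical
  have hκ0 : ℵ₀ ≤ κ := Cardinal.aleph0_le_continuum.trans hκ
  let T : (Σ n : ℕ, ∀ i : Fin n, I i) → Set (∀ n, I n) := fun t =>
    {x | (x ∉ range f ∧ ∃ F ∈ 𝓕, (Pt.nd x e : Pt K f) ∈ F) ∧
      (⟨t.1, fun i => x i⟩ : Σ n : ℕ, ∀ i : Fin n, I i) = t ∧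
      {F | F ∈ 𝓕 ∧ (F ∩ C x t.1 e).Nonempty}.Subsingleton}
  have hsub : {x : ∀ n, I n | x ∉ range f ∧ ∃ F ∈ 𝓕, (Pt.nd x e : Pt K f) ∈ F} ⊆ ⋃ t, T t := by
    rintro x ⟨hx, F, hF, hxF⟩
    obtain ⟨N, hN, hNs⟩ := hd (Pt.nd x e)
    obtain ⟨O, hON, hO, hxO⟩ := mem_nhds_iff.1 hN
    obtain ⟨n, hn⟩ := (isOpen_iff'.1 hO).2 x hx e hxO
    refine mem_iUnion.2 ⟨⟨n, fun i => x i⟩, ⟨hx, F, hF, hxF⟩, rfl, ?_⟩
    rintro G ⟨hG, q, hqG, y, hy, rfl⟩ G' ⟨hG', q', hqG', y', hy', rfl⟩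
    exact hNs ⟨hG, _, hqG, hON (hn y hy)⟩ ⟨hG', _, hqG', hON (hn y' hy')⟩
  refine (Cardinal.mk_le_mk_of_subset hsub).trans ?_
  refine mk_iUnion_le' hκ0 T (mk_nodes_le hκ0 hI) fun t => ?_
  by_cases hne : (T t).Nonempty
  · obtain ⟨x0, ⟨hx0, F0, hF0, hxF0⟩, ht, hss⟩ := hne
    refine (Cardinal.mk_le_mk_of_subset ?_).trans ((mk_H_le F0 (h𝓕 F0 hF0).2 e).trans hκ)
    rintro x ⟨⟨hx, F, hF, hxF⟩, hxt, -⟩
    refine ⟨hx, ?_⟩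
    have h3 := ht.trans hxt.symm
    have h4 : (fun i : Fin t.1 => x0 i) = (fun i : Fin t.1 => x i) := eq_of_heq (Sigma.mk.inj h3).2
    have hag : Agree t.1 x0 x := fun i hi => congrFun h4 ⟨i, hi⟩
    have : F = F0 := hss ⟨hF, Pt.nd x e, hxF, nd_mem_C.2 ⟨hag, rfl⟩⟩
      ⟨hF0, Pt.nd x0 e, hxF0, nd_mem_C.2 ⟨Agree.refl _ _, rfl⟩⟩
    rw [← this]
    exact hxF
  · rw [not_nonempty_iff_eq_empty] at hne
    rw [hne]
    simp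

end Pool.Agent.Helper58.Cwh
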