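import Pool.Agent.Helper58.CwhSep

set_option autoImplicit false

namespace Pool.Agent.Helper58.Cwh

open Set Cardinal Filter Topology

variable {K : Type} {I : ℕ → Type} {J : Type} {f : J → ∀ n, I n}

theorem exists_bound [LinearOrder J] [∀ n, LinearOrder (I n)] {κ : Cardinal.{0}} (hκ : ℵ₀ ≤ κ)
    (hJ : κ < #J) (hinit : ∀ j : J, #(Iio j) ≤ κ)
    (hmono : ∀ i j : J, i < j → ∀ᶠ n in atTop, f i n < f j n)
    (hcof : ∀ g : ∀ n, I n, ∃ j, ∀ᶠ n in atTop, g n ≤ f j n)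
    (L : Set (∀ n, I n)) (hL : #L ≤ κ) : ∃ j0, ∀ x ∈ L, ∀ᶠ n in atTop, x n < f j0 n := by
  by_contra hcon
  push Not at hcon
  choose g hg using hcof
  have huniv : (Set.univ : Set J) ⊆ ⋃ x : L, Iic (g x.1) := by
    intro j _
    obtain ⟨x, hx, hne⟩ := hcon j
    refine mem_iUnion.2 ⟨⟨x, hx⟩, ?_⟩
    by_contra hlt
    rw [mem_Iic, not_le] at hlt
    refine hne ?_
    filter_upwards [hg x, hmono _ _ hlt] with n h1 h2 using not_le.2 (h1.trans_lt h2)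
  have h1 := (Cardinal.mk_le_mk_of_subset huniv).trans
    (mk_iUnion_le' hκ (fun x : L => Iic (g x.1)) hL fun x => mk_Iic_le hκ hinit _)
  rw [Cardinal.mk_univ] at h1
  exact absurd h1 (not_le.2 hJ)

theorem slcwh [LinearOrder J] [∀ n, LinearOrder (I n)] (hK : 𝔠 ≤ #K)
    (hI : ∀ n, #(I n) ≤ #K) (hJ : #K < #J) (hinit : ∀ j : J, #(Iio j) ≤ #K)
    (hmono : ∀ i j : J, i < j → ∀ᶠ n in atTop, f i n < f j n)
    (hcof : ∀ g : ∀ n, I n, ∃ j, ∀ᶠ n in atTop, g n ≤ f j n)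
    (𝓕 : Set (Set (Pt K f))) (h𝓕 : ∀ F ∈ 𝓕, IsClosed F ∧ IsLindelof F)
    (hd : ∀ x, ∃ N ∈ 𝓝 x, {F | F ∈ 𝓕 ∧ (F ∩ N).Nonempty}.Subsingleton) :
    ∃ U : Set (Pt K f) → Set (Pt K f),
      (∀ F ∈ 𝓕, IsOpen (U F) ∧ F ⊆ U F) ∧
      (∀ F ∈ 𝓕, ∀ G ∈ 𝓕, F ≠ G → Disjoint (U F) (U G)) := by
  classical
  have hK0 : ℵ₀ ≤ #K := Cardinal.aleph0_le_continuum.trans hK
  have hinj := injective_of_mono hmono
  -- the set of all tree coordinates of points of the family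
  let L : Set (∀ n, I n) := ⋃ e : Finset (ℕ ⊕ K),
    {x : ∀ n, I n | x ∉ range f ∧ ∃ F ∈ 𝓕, (Pt.nd x e : Pt K f) ∈ F}
  have hL : #L ≤ #K := mk_iUnion_le' hK0 _ (mk_E_le hK0) fun e => mk_Le_le hK hI 𝓕 h𝓕 hd e
  obtain ⟨j0, hj0⟩ := exists_bound hK0 hJ hinit hmono hcof L hL
  -- an injection on the initial segment
  obtain ⟨ι, hι⟩ : ∃ ι : J → K, InjOn ι (Iio j0) := by
    have h1 : #(Iio j0) ≤ #K := hinit j0
    obtain ⟨g⟩ := Cardinal.le_def _ _ |>.1 h1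
    have : Nonempty K := by
      rw [← Cardinal.mk_ne_zero_iff]
      intro h
      rw [h] at hK0
      exact absurd hK0 (not_le.2 Cardinal.aleph0_pos)
    refine ⟨fun j => if h : j ∈ Iio j0 then g ⟨j, h⟩ else Classical.arbitrary K, ?_⟩
    intro a ha b hb hab
    simp only [dif_pos ha, dif_pos hb] at hab
    exact congrArg Subtype.val (g.injective hab)
  let W1 : ℕ ⊕ K → Set (∀ n, I n) := fun a => match a with
    | Sum.inl k => {x | ∃ n ≥ k, x n < f j0 n}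
    | Sum.inr k => {x | ∀ j, j < j0 → ι j = k → x ≠ f j}
  have hW1o : ∀ a x, x ∈ W1 a → ∃ n, ∀ y, Agree n x y → y ∈ W1 a := by
    rintro (k | k) x hx
    · obtain ⟨n, hn, hlt⟩ := hx
      refine ⟨n + 1, fun y hy => ⟨n, hn, ?_⟩⟩
      rw [← hy n (Nat.lt_succ_self n)]
      exact hlt
    · by_cases hex : ∃ j, j < j0 ∧ ι j = k
      · obtain ⟨j, hj, hjk⟩ := hex
        obtain ⟨n, hn⟩ := exists_not_agree (hx j hj hjk)
        refine ⟨n, fun y hy j' hj' hjk' => ?_⟩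
        have : j' = j := hι hj' hj (hjk'.trans hjk.symm)
        subst this
        rintro rfl
        exact hn hy
      · exact ⟨0, fun y _ j' hj' hjk' => absurd ⟨j', hj', hjk'⟩ hex⟩
  let W : Finset (ℕ ⊕ K) → Set (∀ n, I n) := fun e => {x | ∀ a ∈ e, x ∈ W1 a}
  have hWo : ∀ e x, x ∈ W e → ∃ n, ∀ y, Agree n x y → y ∈ W e := by
    intro e x hx
    have h1 : ∀ a : ℕ ⊕ K, ∃ n, a ∈ e → ∀ y, Agree n x y → y ∈ W1 a := by
      intro a
      by_cases ha : a ∈ e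
      · obtain ⟨n, hn⟩ := hW1o a x (hx a ha)
        exact ⟨n, fun _ => hn⟩
      · exact ⟨0, fun h => absurd h ha⟩
    choose n hn using h1
    refine ⟨e.sup n, fun y hy a ha => hn a ha y (hy.mono (Finset.le_sup ha))⟩
  have hLW : ∀ x ∈ L, ∀ e, x ∈ W e := by
    intro x hx e a _
    rcases a with k | k
    · obtain ⟨n, h1, h2⟩ := ((hj0 x hx).and (eventually_ge_atTop k)).exists
      exact ⟨n, h2, h1⟩
    · intro j _ _ hxj
      obtain ⟨e', he'⟩ := mem_iUnion.1 hx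
      exact he'.1 ⟨j, hxj.symm⟩
  have hej : ∀ j, ∃ a : ℕ ⊕ K, f j ∉ W1 a := by
    intro j
    rcases lt_or_ge j j0 with h | h
    · exact ⟨Sum.inr (ι j), fun H => H j h rfl rfl⟩
    · have h1 : ∀ᶠ n in atTop, f j0 n ≤ f j n := by
        rcases h.lt_or_eq with h | h
        · filter_upwards [hmono _ _ h] with n hn using hn.le
        · rw [h]
          exact Eventually.of_forall fun n => le_rfl
      obtain ⟨k, hk⟩ := eventually_atTop.1 h1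
      refine ⟨Sum.inl k, ?_⟩
      rintro ⟨n, hn, hlt⟩
      exact absurd (hk n hn) (not_le.2 hlt)
  choose a ha using hej
  -- the expansions
  let O : Set (Pt K f) → Set (Pt K f) := fun F =>
    (F ∪ {p | ∃ j e, Pt.lim j ∈ F ∧ a j ∈ e ∧ p = Pt.nd (f j) e}) ∪
      {p | ∃ x n y e, x ∉ range f ∧ Pt.nd x e ∈ F ∧ Agree n x y ∧ (∀ z, Agree n x z → z ∈ W e) ∧
        (∀ G ∈ 𝓕, G ≠ F → Disjoint (C x n e) G) ∧ p = Pt.nd y e}
  have hO : ∀ F ∈ 𝓕, IsOpen (O F) := by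
    intro F hF
    rw [isOpen_iff']
    refine ⟨fun j hj => ?_, fun x hx e he => ?_⟩
    · rcases hj with (hj | ⟨i, e, -, -, h⟩) | ⟨x, n, y, e, -, -, -, -, -, h⟩
      · refine ⟨{a j}, fun e he => Or.inl (Or.inr ⟨j, e, hj, ?_, rfl⟩)⟩
        exact Finset.singleton_subset_iff.1 he
      · cases h
      · cases h
    · rcases he with (he | ⟨i, e', -, -, h⟩) | ⟨x', n, y, e', hx', hx'F, hag, hW', hG, h⟩
      · obtain ⟨N, hN, hNs⟩ := hd (Pt.nd x e)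
        obtain ⟨Q, hQN, hQ, hxQ⟩ := mem_nhds_iff.1 hN
        obtain ⟨n1, hn1⟩ := (isOpen_iff'.1 hQ).2 x hx e hxQ
        have hxL : x ∈ L := mem_iUnion.2 ⟨e, hx, F, hF, he⟩
        obtain ⟨n2, hn2⟩ := hWo e x (hLW x hxL e)
        refine ⟨max n1 n2, fun y hy => Or.inr ⟨x, max n1 n2, y, e, hx, he, hy,
          fun z hz => hn2 z (hz.mono (le_max_right _ _)), ?_, rfl⟩⟩
        intro G hG hGF
        rw [Set.disjoint_left]
        rintro p ⟨z, hz, rfl⟩ hpG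
        refine hGF (hNs ⟨hG, Pt.nd z e, hpG, hQN (hn1 z (hz.mono (le_max_left _ _)))⟩
          ⟨hF, Pt.nd x e, he, hQN (hn1 x (Agree.refl _ _))⟩)
      · cases h
        exact absurd ⟨i, rfl⟩ hx
      · cases h
        exact ⟨n, fun z hz => Or.inr ⟨x', n, z, e, hx', hx'F, hag.trans hz, hW', hG, rfl⟩⟩
  have hcl : ∀ F ∈ 𝓕, IsClosed (⋃₀ {G | G ∈ 𝓕 ∧ G ≠ F}) := by
    intro F hF
    rw [← isOpen_compl_iff, isOpen_iff_mem_nhds]
    intro p hp
    obtain ⟨N, hN, hNs⟩ := hd p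
    by_cases hex : ∃ G ∈ 𝓕, G ≠ F ∧ (G ∩ N).Nonempty
    · obtain ⟨G, hG, hGF, hGN⟩ := hex
      have hpG : p ∉ G := fun h => hp ⟨G, ⟨hG, hGF⟩, h⟩
      filter_upwards [hN, (h𝓕 G hG).1.isOpen_compl.mem_nhds hpG] with q hq1 hq2
      rintro ⟨G', ⟨hG', hG'F⟩, hqG'⟩
      have : G' = G := hNs ⟨hG', q, hqG', hq1⟩ ⟨hG, hGN⟩
      subst this
      exact hq2 hqG'
    · filter_upwards [hN] with q hq
      rintro ⟨G', ⟨hG', hG'F⟩, hqG'⟩
      exact hex ⟨G', hG', hG'F, q, hqG', hq⟩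
  have hdisj : ∀ F ∈ 𝓕, ∀ G ∈ 𝓕, F ≠ G → ∀ p, p ∈ F → p ∉ G := by
    intro F hF G hG hFG p hpF hpG
    obtain ⟨N, hN, hNs⟩ := hd p
    exact hFG (hNs ⟨hF, p, hpF, mem_of_mem_nhds hN⟩ ⟨hG, p, hpG, mem_of_mem_nhds hN⟩)
  refine ⟨fun F => O F \ ⋃₀ {G | G ∈ 𝓕 ∧ G ≠ F}, fun F hF => ⟨?_, ?_⟩, ?_⟩
  · exact (hO F hF).sdiff (hcl F hF)
  · intro p hp
    refine ⟨Or.inl (Or.inl hp), ?_⟩
    rintro ⟨G, ⟨hG, hGF⟩, hpG⟩
    exact hdisj F hF G hG hGF.symm p hp hpG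
  · intro F hF G hG hFG
    rw [Set.disjoint_left]
    rintro p ⟨hpF, hpF'⟩ ⟨hpG, hpG'⟩
    have hnF : p ∉ F := fun h => hpG' ⟨F, ⟨hF, hFG⟩, h⟩
    have hnG : p ∉ G := fun h => hpF' ⟨G, ⟨hG, hFG.symm⟩, h⟩
    rcases hpF with (h | ⟨j, e, hjF, haj, rfl⟩) | ⟨x, n, y, e, hx, hxF, hag, hW', hdG, rfl⟩
    · exact hnF h
    · rcases hpG with (h | ⟨j', e', hjG, haj', h⟩) | ⟨x, n, y, e', hx, hxG, hag, hW', hdF, h⟩
      · exact hnG h
      · have hjj : f j = f j' := by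
          injection h
        have : j = j' := hinj hjj
        subst this
        exact hdisj F hF G hG hFG _ hjF hjG
      · injection h with h1 h2
        subst h1 h2
        exact ha j (hW' (f j) hag (a j) haj)
    · rcases hpG with (h | ⟨j', e', hjG, haj', h⟩) | ⟨x', n', y', e', hx', hxG, hag', hW'', hdF, h⟩
      · exact hnG h
      · injection h with h1 h2
        subst h1 h2
        exact ha j' (hW' (f j') hag (a j') haj')
      · injection h with h1 h2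
        subst h1 h2
        rcases le_total n n' with hnn | hnn
        · have h3 : Agree n x x' := hag.trans ((hag'.mono hnn).symm)
          exact Set.disjoint_left.1 (hdG G hG hFG.symm) (nd_mem_C.2 ⟨h3, rfl⟩) hxG
        · have h3 : Agree n' x' x := hag'.trans ((hag.mono hnn).symm)
          exact Set.disjoint_left.1 (hdF F hF hFG) (nd_mem_C.2 ⟨h3, rfl⟩) hxF

end Pool.Agent.Helper58.Cwh
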