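import Mathlib

set_option autoImplicit false

namespace Pool.Agent.Helper58.Cwh

open Set Cardinal Filter Topology

/-- The points: `nd x e` for a function `x` and a finite set `e`, and `lim j` for an index `j`. -/
inductive Pt (K : Type) {I : ℕ → Type} {J : Type} (f : J → ∀ n, I n) : Type
  | nd (x : ∀ n, I n) (e : Finset (ℕ ⊕ K)) : Pt K f
  | lim (j : J) : Pt K f

/-- Agreement below `n`. -/
def Agree {I : ℕ → Type} (n : ℕ) (x y : ∀ n, I n) : Prop := ∀ i < n, x i = y i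

theorem Agree.refl {I : ℕ → Type} (n : ℕ) (x : ∀ n, I n) : Agree n x x := fun _ _ => rfl

theorem Agree.symm {I : ℕ → Type} {n : ℕ} {x y : ∀ n, I n} (h : Agree n x y) : Agree n y x :=
  fun i hi => (h i hi).symm

theorem Agree.trans {I : ℕ → Type} {n : ℕ} {x y z : ∀ n, I n} (h : Agree n x y)
    (h' : Agree n y z) : Agree n x z := fun i hi => (h i hi).trans (h' i hi)

theorem Agree.mono {I : ℕ → Type} {m n : ℕ} {x y : ∀ n, I n} (h : Agree n x y) (hm : m ≤ n) :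
    Agree m x y := fun i hi => h i (hi.trans_le hm)

theorem exists_not_agree {I : ℕ → Type} {x y : ∀ n, I n} (h : x ≠ y) : ∃ n, ¬ Agree n x y := by
  obtain ⟨i, hi⟩ := Function.ne_iff.1 h
  exact ⟨i + 1, fun H => hi (H i (Nat.lt_succ_self i))⟩

variable {K : Type} {I : ℕ → Type} {J : Type} {f : J → ∀ n, I n}

instance : TopologicalSpace (Pt K f) where
  IsOpen U := (∀ j : J, Pt.lim j ∈ U → ∃ e₀ : Finset (ℕ ⊕ K), ∀ e, e₀ ⊆ e → Pt.nd (f j) e ∈ U) ∧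
    (∀ x : ∀ n, I n, x ∉ range f → ∀ e, Pt.nd x e ∈ U → ∃ n, ∀ y, Agree n x y → Pt.nd y e ∈ U)
  isOpen_univ := ⟨fun _ _ => ⟨∅, fun _ _ => trivial⟩, fun _ _ _ _ => ⟨0, fun _ _ => trivial⟩⟩
  isOpen_inter := by
    classical
    rintro U V ⟨hU1, hU2⟩ ⟨hV1, hV2⟩
    refine ⟨fun j hj => ?_, fun x hx e he => ?_⟩
    · obtain ⟨e1, h1⟩ := hU1 j hj.1
      obtain ⟨e2, h2⟩ := hV1 j hj.2
      refine ⟨e1 ∪ e2, fun e he => ⟨h1 e ?_, h2 e ?_⟩⟩
      · exact (Finset.subset_union_left).trans he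
      · exact (Finset.subset_union_right).trans he
    · obtain ⟨n1, h1⟩ := hU2 x hx e he.1
      obtain ⟨n2, h2⟩ := hV2 x hx e he.2
      exact ⟨max n1 n2, fun y hy => ⟨h1 y (hy.mono (le_max_left _ _)),
        h2 y (hy.mono (le_max_right _ _))⟩⟩
  isOpen_sUnion := by
    intro S hS
    refine ⟨fun j hj => ?_, fun x hx e he => ?_⟩
    · obtain ⟨U, hU, hjU⟩ := hj
      obtain ⟨e0, h0⟩ := (hS U hU).1 j hjU
      exact ⟨e0, fun e he => ⟨U, hU, h0 e he⟩⟩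
    · obtain ⟨U, hU, hxU⟩ := he
      obtain ⟨n, hn⟩ := (hS U hU).2 x hx e hxU
      exact ⟨n, fun y hy => ⟨U, hU, hn y hy⟩⟩

theorem isOpen_iff' {U : Set (Pt K f)} : IsOpen U ↔
    (∀ j : J, Pt.lim j ∈ U → ∃ e₀ : Finset (ℕ ⊕ K), ∀ e, e₀ ⊆ e → Pt.nd (f j) e ∈ U) ∧
    (∀ x : ∀ n, I n, x ∉ range f → ∀ e, Pt.nd x e ∈ U → ∃ n, ∀ y, Agree n x y → Pt.nd y e ∈ U) :=
  Iff.rfl

/-- Basic neighbourhood of a limit point. -/
def B (j : J) (e₀ : Finset (ℕ ⊕ K)) : Set (Pt K f) :=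
  {p | p = Pt.lim j ∨ ∃ e, e₀ ⊆ e ∧ p = Pt.nd (f j) e}

/-- Basic tree neighbourhood. -/
def C (x : ∀ n, I n) (n : ℕ) (e : Finset (ℕ ⊕ K)) : Set (Pt K f) :=
  {p | ∃ y, Agree n x y ∧ p = Pt.nd y e}

theorem nd_mem_B {j : J} {e₀ e : Finset (ℕ ⊕ K)} {x : ∀ n, I n} :
    (Pt.nd x e : Pt K f) ∈ B j e₀ ↔ x = f j ∧ e₀ ⊆ e := by
  constructor
  · rintro (h | ⟨e', he', h⟩)
    · cases h
    · cases h; exact ⟨rfl, he'⟩
  · rintro ⟨rfl, h⟩
    exact Or.inr ⟨e, h, rfl⟩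

theorem lim_mem_B {i j : J} {e₀ : Finset (ℕ ⊕ K)} :
    (Pt.lim i : Pt K f) ∈ B j e₀ ↔ i = j := by
  constructor
  · rintro (h | ⟨e', he', h⟩)
    · cases h; rfl
    · cases h
  · rintro rfl
    exact Or.inl rfl

theorem nd_mem_C {x y : ∀ n, I n} {n : ℕ} {e e' : Finset (ℕ ⊕ K)} :
    (Pt.nd y e' : Pt K f) ∈ C x n e ↔ Agree n x y ∧ e' = e := by
  constructor
  · rintro ⟨z, hz, h⟩
    cases h
    exact ⟨hz, rfl⟩
  · rintro ⟨h, rfl⟩
    exact ⟨y, h, rfl⟩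

theorem lim_mem_C {x : ∀ n, I n} {n : ℕ} {e : Finset (ℕ ⊕ K)} {j : J} :
    (Pt.lim j : Pt K f) ∉ C x n e := by
  rintro ⟨z, hz, h⟩
  cases h

theorem exists_not_subset (e : Finset (ℕ ⊕ K)) : ∃ e₀ : Finset (ℕ ⊕ K), ¬ e₀ ⊆ e := by
  obtain ⟨a, ha⟩ := Infinite.exists_notMem_finset e
  exact ⟨{a}, fun h => ha (h (Finset.mem_singleton_self a))⟩

theorem isOpen_B (j : J) (e₀ : Finset (ℕ ⊕ K)) : IsOpen (B j e₀ : Set (Pt K f)) := by
  rw [isOpen_iff']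
  refine ⟨fun i hi => ?_, fun x hx e he => ?_⟩
  · rw [lim_mem_B] at hi
    subst hi
    exact ⟨e₀, fun e he => nd_mem_B.2 ⟨rfl, he⟩⟩
  · exact absurd ⟨j, (nd_mem_B.1 he).1.symm⟩ hx

theorem isOpen_C (x : ∀ n, I n) (n : ℕ) (e : Finset (ℕ ⊕ K)) : IsOpen (C x n e : Set (Pt K f)) := by
  rw [isOpen_iff']
  refine ⟨fun i hi => absurd hi lim_mem_C, fun y hy e' he => ?_⟩
  rw [nd_mem_C] at he
  obtain ⟨h1, rfl⟩ := he
  exact ⟨n, fun z hz => nd_mem_C.2 ⟨h1.trans hz, rfl⟩⟩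

theorem isOpen_iso (j : J) (e : Finset (ℕ ⊕ K)) : IsOpen ({Pt.nd (f j) e} : Set (Pt K f)) := by
  rw [isOpen_iff']
  refine ⟨fun i hi => ?_, fun y hy e' he => ?_⟩
  · cases hi
  · cases he
    exact absurd ⟨j, rfl⟩ hy

theorem isClosed_B (hf : Function.Injective f) (j : J) (e₀ : Finset (ℕ ⊕ K)) :
    IsClosed (B j e₀ : Set (Pt K f)) := by
  rw [← isOpen_compl_iff, isOpen_iff']
  refine ⟨fun i hi => ?_, fun x hx e he => ?_⟩
  · rw [mem_compl_iff, lim_mem_B] at hi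
    refine ⟨∅, fun e he => ?_⟩
    rw [mem_compl_iff, nd_mem_B]
    exact fun h => hi (hf h.1)
  · have hne : x ≠ f j := fun h => hx ⟨j, h.symm⟩
    obtain ⟨n, hn⟩ := exists_not_agree hne
    refine ⟨n, fun y hy => ?_⟩
    rw [mem_compl_iff, nd_mem_B]
    rintro ⟨rfl, -⟩
    exact hn hy

theorem isClosed_C (x : ∀ n, I n) (n : ℕ) (e : Finset (ℕ ⊕ K)) :
    IsClosed (C x n e : Set (Pt K f)) := by
  rw [← isOpen_compl_iff, isOpen_iff']
  refine ⟨fun i hi => ?_, fun y hy e' he => ?_⟩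
  · obtain ⟨e₀, h0⟩ := exists_not_subset e
    refine ⟨e₀, fun e' he' => ?_⟩
    rw [mem_compl_iff, nd_mem_C]
    rintro ⟨-, rfl⟩
    exact h0 he'
  · rw [mem_compl_iff, nd_mem_C] at he
    refine ⟨n, fun z hz => ?_⟩
    rw [mem_compl_iff, nd_mem_C]
    rintro ⟨h1, rfl⟩
    exact he ⟨h1.trans hz.symm, rfl⟩

theorem isClosed_sing (p : Pt K f) : IsClosed ({p} : Set (Pt K f)) := by
  rw [← isOpen_compl_iff, isOpen_iff']
  rcases p with ⟨x, e⟩ | ⟨j⟩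
  · refine ⟨fun i hi => ?_, fun y hy e' he => ?_⟩
    · obtain ⟨e₀, h0⟩ := exists_not_subset e
      refine ⟨e₀, fun e' he' => ?_⟩
      intro h
      cases h
      exact h0 he'
    · by_cases hee : e' = e
      · subst hee
        have hne : y ≠ x := by
          rintro rfl
          exact he rfl
        obtain ⟨n, hn⟩ := exists_not_agree hne
        refine ⟨n, fun z hz h => ?_⟩
        cases h
        exact hn hz
      · refine ⟨0, fun z hz h => ?_⟩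
        cases h
        exact hee rfl
  · refine ⟨fun i hi => ⟨∅, fun e he h => ?_⟩, fun y hy e' he => ⟨0, fun z hz h => ?_⟩⟩
    · cases h
    · cases h

theorem t3 (hf : Function.Injective f) : T3Space (Pt K f) := by
  have : T1Space (Pt K f) := ⟨isClosed_sing⟩
  have : RegularSpace (Pt K f) := by
    refine RegularSpace.of_exists_mem_nhds_isClosed_subset fun p s hs => ?_
    obtain ⟨U, hUs, hU, hpU⟩ := mem_nhds_iff.1 hs
    rw [isOpen_iff'] at hU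
    rcases p with ⟨x, e⟩ | ⟨j⟩
    · by_cases hx : x ∈ range f
      · obtain ⟨j, rfl⟩ := hx
        refine ⟨{Pt.nd (f j) e}, (isOpen_iso j e).mem_nhds rfl, isClosed_sing _, ?_⟩
        rintro _ rfl
        exact hUs hpU
      · obtain ⟨n, hn⟩ := hU.2 x hx e hpU
        refine ⟨C x n e, (isOpen_C x n e).mem_nhds (nd_mem_C.2 ⟨Agree.refl _ _, rfl⟩),
          isClosed_C x n e, ?_⟩
        rintro _ ⟨y, hy, rfl⟩
        exact hUs (hn y hy)
    · obtain ⟨e₀, h0⟩ := hU.1 j hpU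
      refine ⟨B j e₀, (isOpen_B j e₀).mem_nhds (lim_mem_B.2 rfl), isClosed_B hf j e₀, ?_⟩
      rintro _ (rfl | ⟨e, he, rfl⟩)
      · exact hUs hpU
      · exact hUs (h0 e he)
  exact {}

end Pool.Agent.Helper58.Cwh
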